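import Pool.Agent.W254.LF.Stm4
import Pool.Agent.W74.LF.LOGB

/-! The logarithm of a power series, with the shape of the coefficients. -/

set_option autoImplicit false

namespace Pool.Agent.W704.LF

open Filter Topology Pool.Agent.W289.SL Pool.Agent.W74.LF

variable {p : ℕ} [hp : Fact p.Prime]

/-- the composition of the logarithm with a power series, on the whole open unit disc -/
theorem log_comp' {L : ℂ_[p] → ℂ_[p]} (hL : IsIwasawaLog p L) (a : ℕ → ℂ_[p])
    (ha : ∀ k, ‖a k‖ ≤ 1) (h0 : a 0 = 0) {t : ℂ_[p]} (ht1 : ‖t‖ < 1) :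
    ‖∑' k, a k * t ^ k‖ < 1 ∧ L (1 + ∑' k, a k * t ^ k) = ∑' k, Dk a k * t ^ k := by
  set w := ∑' k, a k * t ^ k with hw
  have hwn : ‖w‖ < 1 := by
    have : ‖w‖ ≤ ‖t‖ := by
      rw [hw]
      refine IsUltrametricDist.norm_tsum_le_of_forall_le_of_nonneg (norm_nonneg _) fun k => ?_
      rcases Nat.eq_zero_or_pos k with hk | hk
      · subst hk; rw [h0]; simp
      · rw [norm_mul, norm_pow]
        calc ‖a k‖ * ‖t‖ ^ k ≤ 1 * ‖t‖ ^ 1 :=
              mul_le_mul (ha k) (pow_le_pow_of_le_one (norm_nonneg _) ht1.le hk)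
                (pow_nonneg (norm_nonneg _) _) zero_le_one
          _ ≤ ‖t‖ := by rw [one_mul, pow_one]
    linarith
  refine ⟨hwn, ?_⟩
  have h1 := (hL.ser w hwn).tsum_eq
  rw [← h1]
  set F : ℕ → ℕ → ℂ_[p] := fun l k =>
    (-1) ^ l * PowerSeries.coeff k (PowerSeries.mk a ^ (l + 1)) / ((l : ℂ_[p]) + 1) * t ^ k with hF
  have h2 : ∀ l : ℕ, (-1 : ℂ_[p]) ^ l * w ^ (l + 1) / ((l : ℂ_[p]) + 1) = ∑' k, F l k := by
    intro l
    rw [hw, ← eval_pow a ha ht1 (l + 1), ← tsum_mul_left, ← tsum_div_const]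
    refine tsum_congr fun k => ?_
    rw [hF]
    ring
  simp_rw [h2]
  set r : ℝ := Real.sqrt ‖t‖ with hr
  have hr0 : 0 ≤ r := Real.sqrt_nonneg _
  have hrr : r * r = ‖t‖ := Real.mul_self_sqrt (norm_nonneg _)
  have hr1 : r < 1 := by
    rw [hr, Real.sqrt_lt' one_pos]
    simpa using ht1
  have hrn : ‖r‖ < 1 := by rwa [Real.norm_of_nonneg hr0]
  have hsum : Summable (Function.uncurry F) := by
    have hb : Summable fun q : ℕ × ℕ => (((q.1 : ℝ) + 1) * r ^ q.1) * (r ^ q.2) := by
      refine Summable.mul_of_nonneg (f := fun l : ℕ => ((l : ℝ) + 1) * r ^ l)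
        (g := fun k : ℕ => r ^ k) ?_ (summable_geometric_of_lt_one hr0 hr1)
          (fun l => by positivity) (fun k => by positivity)
      have e1 : Summable fun l : ℕ => (l : ℝ) ^ 1 * r ^ l :=
        summable_pow_mul_geometric_of_norm_lt_one 1 hrn
      have e2 : Summable fun l : ℕ => r ^ l :=
        summable_geometric_of_lt_one hr0 hr1
      refine (e1.add e2).congr fun l => ?_
      ring
    refine Summable.of_norm_bounded hb fun q => ?_
    obtain ⟨l, k⟩ := q
    show ‖F l k‖ ≤ ((l : ℝ) + 1) * r ^ l * r ^ k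
    rcases Nat.lt_or_ge k (l + 1) with hk | hk
    · rw [hF]
      simp only
      rw [coeff_zero_of_lt a h0 (l + 1) k hk]
      simp
      positivity
    · rw [hF]
      simp only
      rw [norm_mul, norm_pow]
      have e1 : ‖t‖ ^ k ≤ r ^ l * r ^ k := by
        calc ‖t‖ ^ k = r ^ k * r ^ k := by rw [← hrr, mul_pow]
          _ ≤ r ^ l * r ^ k := by
              refine mul_le_mul_of_nonneg_right ?_ (by positivity)
              exact pow_le_pow_of_le_one hr0 hr1.le (by omega)
      calc ‖(-1) ^ l * PowerSeries.coeff k (PowerSeries.mk a ^ (l + 1)) / ((l : ℂ_[p]) + 1)‖ *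
            ‖t‖ ^ k ≤ ((l : ℝ) + 1) * (r ^ l * r ^ k) :=
            mul_le_mul (term_norm a ha l k) e1 (pow_nonneg (norm_nonneg _) _) (by positivity)
        _ = ((l : ℝ) + 1) * r ^ l * r ^ k := by ring
  rw [← hsum.tsum_comm]
  refine tsum_congr fun k => ?_
  unfold Dk
  rw [tsum_eq_sum (s := Finset.range k), Finset.sum_mul]
  intro l hl
  rw [Finset.mem_range, not_lt] at hl
  rw [hF]
  simp only
  rw [coeff_zero_of_lt a h0 (l + 1) k (by omega)]
  simp

/-- the coefficients, shifted by one -/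
noncomputable def sh (η : ℕ → ℂ_[p]) (k : ℕ) : ℂ_[p] := if k = 0 then 0 else η (k - 1)

lemma mk_sh (η : ℕ → ℂ_[p]) : PowerSeries.mk (sh η) = PowerSeries.X * PowerSeries.mk η := by
  ext k
  rcases k with _ | k
  · simp [sh]
  · rw [PowerSeries.coeff_succ_X_mul, PowerSeries.coeff_mk, PowerSeries.coeff_mk]
    simp [sh]

lemma sh_norm (η : ℕ → ℂ_[p]) (hη : ∀ k, ‖η k‖ ≤ 1) (k : ℕ) : ‖sh η k‖ ≤ 1 := by
  unfold sh
  split_ifs
  · simp
  · exact hη _

theorem t_PLOG : Pool.Agent.W254.LF.S_PLOG := by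
  intro p hp L hL η hη
  refine ⟨fun k n => (-1) ^ (n - 1) / (n : ℂ_[p]) *
    PowerSeries.coeff k (PowerSeries.mk (sh η) ^ n), ?_, ?_, ?_⟩
  · intro k n hn
    rw [norm_mul, norm_div, norm_pow, norm_neg, norm_one, one_pow, one_div]
    calc ‖(n : ℂ_[p])‖⁻¹ * ‖PowerSeries.coeff k (PowerSeries.mk (sh η) ^ n)‖
        ≤ ‖(n : ℂ_[p])‖⁻¹ * 1 := mul_le_mul_of_nonneg_left
          (coeff_norm_le _ (sh_norm η hη) _ _) (inv_nonneg.2 (norm_nonneg _))
      _ = ‖(n : ℂ_[p])‖⁻¹ := mul_one _
  · intro k hk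
    simp only
    congr 1
    rw [mk_sh, mul_pow]
    have := PowerSeries.coeff_X_pow_mul (PowerSeries.mk η ^ k) k 0
    rw [zero_add] at this
    rw [this, PowerSeries.coeff_zero_eq_constantCoeff_apply, map_pow,
      ← PowerSeries.coeff_zero_eq_constantCoeff_apply, PowerSeries.coeff_mk]
  · intro u w hu hw
    have hu0 : u ≠ 0 := by
      intro h; rw [h, norm_zero] at hu; exact zero_ne_one hu
    set a : ℕ → ℂ_[p] := fun k => sh η k * u⁻¹ with hadef
    have ha0 : a 0 = 0 := by simp [hadef, sh]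
    have ha : ∀ k, ‖a k‖ ≤ 1 := by
      intro k
      rw [hadef]
      simp only
      rw [norm_mul, norm_inv, hu, inv_one, mul_one]
      exact sh_norm η hη k
    have hmk : PowerSeries.mk a = PowerSeries.C u⁻¹ * PowerSeries.mk (sh η) := by
      ext k
      rw [PowerSeries.coeff_C_mul, PowerSeries.coeff_mk, PowerSeries.coeff_mk, mul_comm]
    have hco : ∀ n k, PowerSeries.coeff k (PowerSeries.mk a ^ n) =
        u⁻¹ ^ n * PowerSeries.coeff k (PowerSeries.mk (sh η) ^ n) := by
      intro n k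
      rw [hmk, mul_pow, ← map_pow, PowerSeries.coeff_C_mul]
    have hDk : ∀ k : ℕ, Dk a k = ∑ n ∈ Finset.Icc 1 k, ((-1) ^ (n - 1) / (n : ℂ_[p]) *
        PowerSeries.coeff k (PowerSeries.mk (sh η) ^ n)) * u⁻¹ ^ n := by
      intro k
      unfold Dk
      refine Finset.sum_bij' (fun l _ => l + 1) (fun n _ => n - 1) ?_ ?_ ?_ ?_ ?_
      · intro l hl; rw [Finset.mem_range] at hl; rw [Finset.mem_Icc]; omega
      · intro n hn; rw [Finset.mem_Icc] at hn; rw [Finset.mem_range]; omega
      · intro l hl; omega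
      · intro n hn; rw [Finset.mem_Icc] at hn; omega
      · intro l hl
        rw [hco, Nat.add_sub_cancel]
        push_cast
        ring
    obtain ⟨h1, h2⟩ := log_comp' hL a ha ha0 hw
    have hs : Summable fun k : ℕ => ‖Dk a (k + 1) * w ^ (k + 1)‖ := by
      have hwn : ‖‖w‖‖ < 1 := by rwa [norm_norm]
      have e1 : Summable fun l : ℕ => (l : ℝ) ^ 1 * ‖w‖ ^ l :=
        summable_pow_mul_geometric_of_norm_lt_one 1 hwn
      have e2 := (summable_nat_add_iff 1).2 e1
      refine Summable.of_nonneg_of_le (fun _ => norm_nonneg _) (fun k => ?_) e2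
      rw [norm_mul, norm_pow, pow_one]
      exact mul_le_mul_of_nonneg_right (Dk_norm a ha (k + 1)) (pow_nonneg (norm_nonneg _) _)
    have hs' : Summable fun k : ℕ => Dk a k * w ^ k := (summable_nat_add_iff 1).1 hs.of_norm
    refine ⟨?_, ?_⟩
    · refine hs.congr fun k => ?_
      rw [hDk]
    · have hsη : Summable fun k => η k * w ^ k := (summable_aux η hη hw).of_norm
      have e1 : u + w * ∑' k, η k * w ^ k = u * (1 + ∑' k, a k * w ^ k) := by
        have hs1 : Summable fun k => a k * w ^ k := (summable_aux a ha hw).of_norm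
        rw [hs1.tsum_eq_zero_add, ha0, zero_mul, zero_add, mul_add, mul_one, ← tsum_mul_left,
          ← tsum_mul_left]
        congr 1
        refine tsum_congr fun k => ?_
        rw [hadef]
        simp only [sh, Nat.add_sub_cancel, if_neg (Nat.succ_ne_zero k)]
        field_simp
        ring
      have hne : (1 + ∑' k, a k * w ^ k) ≠ 0 := by
        intro h
        have h3 : ∑' k, a k * w ^ k = -1 := by linear_combination h
        rw [h3, norm_neg, norm_one] at h1
        exact lt_irrefl _ h1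
      rw [e1, hL.mul _ _ hu0 hne, h2, hs'.tsum_eq_zero_add]
      have hD0 : Dk a 0 = 0 := by unfold Dk; simp
      rw [hD0, zero_mul, zero_add]
      congr 1
      refine tsum_congr fun k => ?_
      rw [hDk]

end Pool.Agent.W704.LF
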